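import Mathlib

open Set Filter Topology

namespace Pool.Agent.H.MP_52b37d_gt

abbrev Z := ℤ_[2] × ℤ_[3]
abbrev Col := ZMod 2 ⊕ ZMod (3 ^ 2)

theorem val_of_norm {p : ℕ} [hp : Fact p.Prime] {y y' : ℤ_[p]} (hy : y ≠ 0) (h : ‖y'‖ = ‖y‖) :
    y'.valuation = y.valuation := by
  have hy' : y' ≠ 0 := fun e => hy (by rwa [e, norm_zero, eq_comm, norm_eq_zero] at h)
  rw [PadicInt.norm_eq_zpow_neg_valuation hy, PadicInt.norm_eq_zpow_neg_valuation hy'] at h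
  have h1 : (1 : ℝ) < p := by exact_mod_cast hp.out.one_lt
  have := zpow_right_injective₀ (by linarith) h1.ne' h
  omega

theorem norm_lc {p : ℕ} [Fact p.Prime] {y : ℤ_[p]} (hy : y ≠ 0) : ∀ᶠ y' in 𝓝 y, ‖y'‖ = ‖y‖ := by
  filter_upwards [Metric.ball_mem_nhds y (norm_pos_iff.2 hy)] with y' h
  rw [mem_ball_iff_norm] at h
  have := PadicInt.norm_eq_of_norm_add_lt_right (z1 := y') (z2 := -y)
    (by rwa [← sub_eq_add_neg, norm_neg])
  rwa [norm_neg] at this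

theorem dvd_nhds {p : ℕ} [hp : Fact p.Prime] (y : ℤ_[p]) (k : ℕ) :
    ∀ᶠ y' in 𝓝 y, (p : ℤ_[p]) ^ k ∣ y' - y := by
  have h1 : (0 : ℝ) < p := by exact_mod_cast hp.out.pos
  filter_upwards [Metric.closedBall_mem_nhds y (zpow_pos h1 (-k : ℤ))] with y' h
  rw [mem_closedBall_iff_norm, PadicInt.norm_le_pow_iff_mem_span_pow, Ideal.mem_span_singleton] at h
  exact h

open Classical in
noncomputable def cls (y : ℤ_[3]) : ZMod (3 ^ 2) :=
  if h : y ≠ 0 then PadicInt.toZModPow 2 ((PadicInt.unitCoeff h : ℤ_[3]) ^ 2) else 0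

theorem cls_rep {w : ℤ_[3]} (hw : IsUnit w) (v : ℕ) :
    cls (w * ((3 : ℕ) : ℤ_[3]) ^ v) = PadicInt.toZModPow 2 (w ^ 2) := by
  have h3 : ((3 : ℕ) : ℤ_[3]) ^ v ≠ 0 := pow_ne_zero _ (NeZero.ne _)
  have h0 : w * ((3 : ℕ) : ℤ_[3]) ^ v ≠ 0 := mul_ne_zero hw.ne_zero h3
  have hv : (w * ((3 : ℕ) : ℤ_[3]) ^ v).valuation = v := by
    rw [mul_comm, PadicInt.valuation_p_pow_mul _ _ hw.ne_zero,
      val_of_norm (y := 1) one_ne_zero (by rw [PadicInt.isUnit_iff.1 hw, norm_one])]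
    simp
  have := PadicInt.unitCoeff_spec h0
  rw [hv] at this
  simp only [cls, dif_pos h0]
  rw [← mul_right_cancel₀ h3 this]

theorem unit2 : IsUnit (2 : ℤ_[3]) := by
  rw [PadicInt.isUnit_iff]
  by_contra h
  have := (PadicInt.norm_int_lt_one_iff_dvd (p := 3) 2).1
    (lt_of_le_of_ne (PadicInt.norm_le_one _) (by exact_mod_cast h))
  norm_num at this

theorem unit3 : IsUnit (3 : ℤ_[2]) := by
  rw [PadicInt.isUnit_iff]
  by_contra h
  have := (PadicInt.norm_int_lt_one_iff_dvd (p := 2) 3).1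
    (lt_of_le_of_ne (PadicInt.norm_le_one _) (by exact_mod_cast h))
  norm_num at this

theorem cls_neg (y : ℤ_[3]) : cls (-y) = cls y := by
  by_cases h : y = 0
  · rw [h, neg_zero]
  · rw [PadicInt.unitCoeff_spec h, ← neg_mul, cls_rep (Units.isUnit _), cls_rep (Units.isUnit _).neg,
      neg_sq]

theorem cls_two {y : ℤ_[3]} (h : y ≠ 0) : cls (2 * y) ≠ cls y := by
  rw [PadicInt.unitCoeff_spec h, ← mul_assoc, cls_rep (Units.isUnit _),
    cls_rep (unit2.mul (Units.isUnit _)), mul_pow, map_mul]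
  intro e
  have hu := ((Units.isUnit (PadicInt.unitCoeff h)).pow 2).map (PadicInt.toZModPow (p := 3) 2)
  have e2 := hu.mul_right_cancel (e.trans (one_mul _).symm)
  rw [map_pow, map_ofNat] at e2
  revert e2; decide

theorem cls_lc {y : ℤ_[3]} (h : y ≠ 0) : ∀ᶠ y' in 𝓝 y, cls y' = cls y := by
  filter_upwards [dvd_nhds y (y.valuation + 2)] with y' ⟨z, hz⟩
  have e := PadicInt.unitCoeff_spec h
  set w : ℤ_[3] := (PadicInt.unitCoeff h : ℤ_[3])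
  have hw : IsUnit w := Units.isUnit _
  have e' : y' = (w + ((3 : ℕ) : ℤ_[3]) ^ 2 * z) * ((3 : ℕ) : ℤ_[3]) ^ y.valuation := by
    rw [add_mul, ← e]; linear_combination hz
  have hw' : IsUnit (w + ((3 : ℕ) : ℤ_[3]) ^ 2 * z) := by
    rw [PadicInt.isUnit_iff] at hw ⊢
    have := PadicInt.norm_eq_of_norm_add_lt_right (z1 := w + ((3 : ℕ) : ℤ_[3]) ^ 2 * z) (z2 := -w) (by
      rw [norm_neg, hw, PadicInt.norm_lt_one_iff_dvd]
      exact ⟨((3 : ℕ) : ℤ_[3]) * z, by ring⟩)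
    rwa [norm_neg, hw] at this
  have h9 : PadicInt.toZModPow (p := 3) 2 (((3 : ℕ) : ℤ_[3]) ^ 2) = 0 := by
    rw [map_pow, map_natCast]; decide
  rw [e', cls_rep hw']
  conv_rhs => rw [e, cls_rep hw]
  rw [map_pow, map_add, map_mul, h9, zero_mul, add_zero, map_pow]

open Classical in
noncomputable def s (y : Z) : Col :=
  if ‖y.2‖ ≤ ‖y.1‖ then .inl (y.1.valuation : ZMod 2) else .inr (cls y.2)

theorem s_neg (y : Z) : s (-y) = s y := by
  simp only [s, Prod.snd_neg, Prod.fst_neg, norm_neg, cls_neg]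
  by_cases h : y.1 = 0
  · rw [h, neg_zero]
  · rw [val_of_norm h (norm_neg _)]

theorem fst_ne {y : Z} (h : y ≠ 0) (h' : ‖y.2‖ ≤ ‖y.1‖) : y.1 ≠ 0 := fun e => by
  rw [e, norm_zero, norm_le_zero_iff] at h'
  exact h (Prod.ext e h')

theorem snd_ne {y : Z} (h' : ¬ ‖y.2‖ ≤ ‖y.1‖) : y.2 ≠ 0 := fun e =>
  h' (by rw [e, norm_zero]; exact norm_nonneg _)

theorem s_two {y : Z} (h : y ≠ 0) : s (2 * y) ≠ s y := by
  have e1 : (2 * y).1 = ((2 : ℕ) : ℤ_[2]) * y.1 := rfl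
  have e2 : (2 * y).2 = 2 * y.2 := rfl
  have n2 : ‖(2 * y).2‖ = ‖y.2‖ := by rw [e2, norm_mul, PadicInt.isUnit_iff.1 unit2, one_mul]
  have n1 : ‖(2 * y).1‖ ≤ ‖y.1‖ := by
    rw [e1, norm_mul]; exact mul_le_of_le_one_left (norm_nonneg _) (PadicInt.norm_le_one _)
  unfold s
  split_ifs with h1 h2 h2
  · rw [e1, PadicInt.valuation_mul (NeZero.ne _) (fst_ne h h2), PadicInt.valuation_p]
    simp
  · exact absurd (n2 ▸ h1.trans n1) h2
  · simp
  · rw [e2]; simpa using cls_two (snd_ne h2)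

theorem s_lc {y : Z} (h : y ≠ 0) : ∀ᶠ y' in 𝓝 y, s y' = s y := by
  by_cases h1 : ‖y.2‖ ≤ ‖y.1‖
  · have a1 := continuous_fst.continuousAt.eventually (norm_lc (fst_ne h h1))
    have a2 : ∀ᶠ y' : Z in 𝓝 y, ‖y'.2‖ ≤ ‖y.1‖ := by
      by_cases h2 : y.2 = 0
      · have : ‖y.2‖ < ‖y.1‖ := by rw [h2, norm_zero]; exact norm_pos_iff.2 (fst_ne h h1)
        exact ((continuous_snd.norm.continuousAt).eventually_lt continuousAt_const this).mono
          fun _ h => h.le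
      · filter_upwards [continuous_snd.continuousAt.eventually (norm_lc h2)] with y' h using h ▸ h1
    filter_upwards [a1, a2] with y' b1 b2
    simp only [s]
    rw [if_pos h1, if_pos (b1 ▸ b2), val_of_norm (fst_ne h h1) b1]
  · have a1 := continuous_snd.continuousAt.eventually (cls_lc (snd_ne h1))
    have a2 : ∀ᶠ y' : Z in 𝓝 y, ‖y'.1‖ < ‖y'.2‖ :=
      (continuous_fst.norm.continuousAt).eventually_lt continuous_snd.norm.continuousAt (not_le.1 h1)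
    filter_upwards [a1, a2] with y' b1 b2
    simp only [s]
    rw [if_neg h1, if_neg (not_le.2 b2), b1]

theorem six_dvd {k : ℕ} {y : Z} : (6 : Z) ^ k ∣ y ↔
    ((2 : ℕ) : ℤ_[2]) ^ k ∣ y.1 ∧ ((3 : ℕ) : ℤ_[3]) ^ k ∣ y.2 := by
  have e1 : ((6 : Z) ^ k).1 = ((2 : ℕ) : ℤ_[2]) ^ k * 3 ^ k := by
    rw [Prod.pow_fst, ← mul_pow]; norm_num
  have e2 : ((6 : Z) ^ k).2 = ((3 : ℕ) : ℤ_[3]) ^ k * 2 ^ k := by
    rw [Prod.pow_snd, ← mul_pow]; norm_num
  rw [prod_dvd_iff, e1, e2, (unit3.pow k).mul_right_dvd, (unit2.pow k).mul_right_dvd]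

theorem six_nhds (y : Z) (k : ℕ) : ∀ᶠ y' in 𝓝 y, (6 : Z) ^ k ∣ y' - y := by
  filter_upwards [continuous_fst.continuousAt.eventually (dvd_nhds y.1 k),
    continuous_snd.continuousAt.eventually (dvd_nhds y.2 k)] with y' h1 h2
  exact six_dvd.2 ⟨h1, h2⟩

theorem six_basis {O : Set Z} (h : O ∈ 𝓝 (0 : Z)) : ∃ k, ∀ y, (6 : Z) ^ k ∣ y → y ∈ O := by
  obtain ⟨ε, hε, hb⟩ := Metric.mem_nhds_iff.1 h
  have h6 : ‖(6 : Z)‖ < 1 := by
    have := (six_dvd (k := 1) (y := 6)).1 (by simp)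
    rw [pow_one, pow_one, ← PadicInt.norm_lt_one_iff_dvd, ← PadicInt.norm_lt_one_iff_dvd] at this
    exact max_lt this.1 this.2
  obtain ⟨k, hk⟩ := exists_pow_lt_of_lt_one hε h6
  refine ⟨k + 1, ?_⟩
  rintro _ ⟨z, rfl⟩
  apply hb
  rw [mem_ball_zero_iff]
  have hz : ‖z‖ ≤ 1 := max_le (PadicInt.norm_le_one _) (PadicInt.norm_le_one _)
  calc _ ≤ ‖(6 : Z) ^ (k + 1)‖ * ‖z‖ := norm_mul_le _ _
    _ ≤ ‖(6 : Z)‖ ^ (k + 1) * 1 := mul_le_mul (norm_pow_le' _ (by omega)) hz (norm_nonneg _) (by positivity)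
    _ ≤ ‖(6 : Z)‖ ^ k := by
      rw [mul_one]; exact pow_le_pow_of_le_one (norm_nonneg _) h6.le (by omega)
    _ < ε := hk

theorem six_int {k : ℕ} {n : ℤ} (h : (6 : Z) ^ k ∣ (n : Z)) : (6 : ℤ) ^ k ∣ n := by
  obtain ⟨h1, h2⟩ := six_dvd.1 h
  have a1 := (PadicInt.pow_p_dvd_int_iff k n).1 h1
  have a2 := (PadicInt.pow_p_dvd_int_iff k n).1 h2
  rw [show (6 : ℤ) = 2 * 3 by norm_num, mul_pow]
  exact IsCoprime.mul_dvd (IsCoprime.pow (by norm_num)) a1 a2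

theorem six_dens (k : ℕ) (y : Z) : ∃ n : ℤ, (6 : Z) ^ k ∣ y + n := by
  have h1 := Ideal.mem_span_singleton.1 (PadicInt.appr_spec k y.1)
  have h2 := Ideal.mem_span_singleton.1 (PadicInt.appr_spec k y.2)
  obtain ⟨m, m1, m2⟩ := Nat.chineseRemainder (n := 2 ^ k) (m := 3 ^ k)
    (Nat.Coprime.pow _ _ (by norm_num)) (PadicInt.appr y.1 k) (PadicInt.appr y.2 k)
  refine ⟨-m, six_dvd.2 ⟨?_, ?_⟩⟩
  · have := (PadicInt.pow_p_dvd_int_iff (p := 2) k _).2 (by exact_mod_cast m1.dvd)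
    have e := dvd_add h1 this
    push_cast at e ⊢
    simpa [sub_eq_add_neg, add_assoc] using e
  · have := (PadicInt.pow_p_dvd_int_iff (p := 3) k _).2 (by exact_mod_cast m2.dvd)
    have e := dvd_add h2 this
    push_cast at e ⊢
    simpa [sub_eq_add_neg, add_assoc] using e

theorem int_inj {m n : ℤ} (h : (m : Z) = n) : m = n := by
  have := congrArg Prod.fst h
  exact Int.cast_injective (α := ℤ_[2]) this

theorem odd_ne (y : Z) {n : ℤ} (hn : ¬ 2 ∣ n) : 2 * y + n ≠ 0 := by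
  intro h
  have h1 : (n : ℤ_[2]) = ((2 : ℕ) : ℤ_[2]) ^ 1 * (-y.1) := by
    have : 2 * y.1 + (n : ℤ_[2]) = 0 := congrArg Prod.fst h
    push_cast; linear_combination this
  exact hn (by simpa using (PadicInt.pow_p_dvd_int_iff (p := 2) 1 n).1 ⟨_, h1⟩)

theorem three_dvd {y : Z} {n : ℤ} (h : 3 * y = n) : 3 ∣ n := by
  have h1 : (n : ℤ_[3]) = ((3 : ℕ) : ℤ_[3]) ^ 1 * y.2 := by
    have : 3 * y.2 = (n : ℤ_[3]) := congrArg Prod.snd h
    push_cast; linear_combination -this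
  simpa using (PadicInt.pow_p_dvd_int_iff (p := 3) 1 n).1 ⟨_, h1⟩

theorem two_pow_ne {y : Z} (h : y ≠ 0) (j : ℕ) : 2 ^ j * y ≠ 0 := by
  intro e
  apply h
  have h1 : (2 : ℤ_[2]) ^ j * y.1 = 0 := congrArg Prod.fst e
  have h2 : (2 : ℤ_[3]) ^ j * y.2 = 0 := congrArg Prod.snd e
  exact Prod.ext ((mul_eq_zero.1 h1).resolve_left (pow_ne_zero _ two_ne_zero))
    ((mul_eq_zero.1 h2).resolve_left (pow_ne_zero _ two_ne_zero))

end Pool.Agent.H.MP_52b37d_gt
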