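import Pool.Agent.H.MP_52b37d_gt.A

open Set Filter Topology

namespace Pool.Agent.H.MP_52b37d_gt

abbrev P := Z × (ℕ × ℤ → Col)

def Γ : Set P := {p | (∀ n : ℤ, p.1 + n ≠ 0) ∧ ∀ j (n : ℤ), p.2 (j, n) = s (2 ^ j * (p.1 + n))}

abbrev X := closure Γ

instance : CompactSpace X := isCompact_iff_compactSpace.1 isClosed_closure.isCompact

noncomputable def T0 (m : ℤ) (p : P) : P := (p.1 + m, fun i => p.2 (i.1, i.2 + m))
noncomputable def σ0 (p : P) : P := (-p.1, fun i => p.2 (i.1, -i.2))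
noncomputable def φ0 (p : P) : P :=
  (2 * p.1, fun i => if 2 ∣ i.2 then p.2 (i.1 + 1, i.2 / 2) else s (2 ^ i.1 * (2 * p.1 + i.2)))

theorem T0_cont (m : ℤ) : Continuous (T0 m) := by unfold T0; fun_prop
theorem σ0_cont : Continuous σ0 := by unfold σ0; fun_prop
theorem φ0_cont : Continuous φ0 := by
  refine Continuous.prodMk (by fun_prop) (continuous_pi fun i => ?_)
  split_ifs with h
  · fun_prop
  · refine (IsLocallyConstant.iff_eventually_eq _).2 (fun p => ?_) |>.continuous
    have hc : Continuous fun p : P => 2 ^ i.1 * (2 * p.1 + (i.2 : Z)) := by fun_prop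
    exact hc.continuousAt.eventually (s_lc (two_pow_ne (odd_ne p.1 h) _))

theorem T0_map (m : ℤ) : MapsTo (T0 m) Γ Γ := by
  rintro p ⟨h1, h2⟩
  refine ⟨fun n => ?_, fun j n => ?_⟩
  · have := h1 (m + n); push_cast at this; simpa only [T0, add_assoc] using this
  · simp only [T0]; rw [h2]; push_cast; congr 2; ring

theorem σ0_map : MapsTo σ0 Γ Γ := by
  rintro p ⟨h1, h2⟩
  refine ⟨fun n h => h1 (-n) ?_, fun j n => ?_⟩
  · simp only [σ0] at h; push_cast; linear_combination -h
  · simp only [σ0]; rw [h2, ← s_neg]; push_cast; congr 1; ring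

theorem φ0_map : MapsTo φ0 Γ Γ := by
  rintro p ⟨h1, h2⟩
  refine ⟨fun n h => ?_, fun j n => ?_⟩
  · by_cases hn : 2 ∣ n
    · obtain ⟨m, rfl⟩ := hn
      refine two_pow_ne (h1 m) 1 ?_
      simp only [φ0] at h; push_cast at h; linear_combination h
    · exact odd_ne _ hn h
  · simp only [φ0]
    split_ifs with hn
    · obtain ⟨m, rfl⟩ := hn
      rw [h2, Int.mul_ediv_cancel_left _ two_ne_zero]; push_cast; congr 1; ring
    · rfl

noncomputable def T (m : ℤ) (x : X) : X := ⟨T0 m x, (T0_map m).closure (T0_cont m) x.2⟩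
noncomputable def σ (x : X) : X := ⟨σ0 x, σ0_map.closure σ0_cont x.2⟩
noncomputable def φ (x : X) : X := ⟨φ0 x, φ0_map.closure φ0_cont x.2⟩
def π (x : X) : Z := x.1.1

theorem T_cont (m : ℤ) : Continuous (T m) := ((T0_cont m).comp continuous_subtype_val).subtype_mk _
theorem σ_cont : Continuous σ := (σ0_cont.comp continuous_subtype_val).subtype_mk _
theorem φ_cont : Continuous φ := (φ0_cont.comp continuous_subtype_val).subtype_mk _
theorem π_cont : Continuous π := continuous_fst.comp continuous_subtype_val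

theorem π_T (m : ℤ) (x : X) : π (T m x) = π x + m := rfl
theorem π_σ (x : X) : π (σ x) = -π x := rfl
theorem π_φ (x : X) : π (φ x) = 2 * π x := rfl

theorem T_add (a b : ℤ) (x : X) : T a (T b x) = T (b + a) x := by
  apply Subtype.ext
  simp only [T, T0, Prod.mk.injEq]
  exact ⟨by push_cast; ring, funext fun i => by rw [add_assoc, add_comm a]⟩

theorem T_zero (x : X) : T 0 x = x := by
  apply Subtype.ext
  simp [T, T0]

theorem σ_σ (x : X) : σ (σ x) = x := by
  apply Subtype.ext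
  simp [σ, σ0]

theorem T_σ (a : ℤ) (x : X) : T a (σ x) = σ (T (-a) x) := by
  apply Subtype.ext
  simp only [T, T0, σ, σ0, Prod.mk.injEq]
  exact ⟨by push_cast; ring, funext fun i => by rw [neg_add]⟩

theorem φ_T (a : ℤ) (x : X) : φ (T a x) = T (2 * a) (φ x) := by
  apply Subtype.ext
  simp only [T, T0, φ, φ0, Prod.mk.injEq]
  refine ⟨by push_cast; ring, funext fun i => ?_⟩
  by_cases h : 2 ∣ i.2
  · rw [if_pos h, if_pos (by omega), show (i.2 + 2 * a) / 2 = i.2 / 2 + a by omega]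
  · rw [if_neg h, if_neg (by omega)]; push_cast; congr 2; ring

theorem φ_σ (x : X) : φ (σ x) = σ (φ x) := by
  apply Subtype.ext
  simp only [σ, σ0, φ, φ0, Prod.mk.injEq]
  refine ⟨by ring, funext fun i => ?_⟩
  by_cases h : 2 ∣ i.2
  · rw [if_pos h, if_pos (by omega), show (-i.2) / 2 = -(i.2 / 2) by omega]
  · rw [if_neg h, if_neg (by omega), ← s_neg]; push_cast; congr 1; ring

theorem coord (x : X) (j : ℕ) {n : ℤ} (h : π x + n ≠ 0) :
    x.1.2 (j, n) = s (2 ^ j * (π x + n)) := by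
  have hc : Continuous fun p : P => 2 ^ j * (p.1 + (n : Z)) := by fun_prop
  have h1 := hc.continuousAt.eventually (s_lc (two_pow_ne h j))
  have hc2 : Continuous fun p : P => p.2 (j, n) := by fun_prop
  have h2 : ∀ᶠ p : P in 𝓝 x.1, p.2 (j, n) = x.1.2 (j, n) :=
    hc2.continuousAt.eventually ((isOpen_discrete {x.1.2 (j, n)}).mem_nhds rfl)
  obtain ⟨p, ⟨a, b⟩, c⟩ := mem_closure_iff_nhds.1 x.2 _ (h1.and h2)
  rw [← b, c.2, a]; rfl

theorem coord_ne (x : X) (j : ℕ) (n : ℤ) : x.1.2 (j + 1, n) ≠ x.1.2 (j, n) := by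
  have hc : IsClosed {p : P | p.2 (j + 1, n) ≠ p.2 (j, n)} :=
    (isClosed_discrete {e : Col × Col | e.1 ≠ e.2}).preimage
      (f := fun p : P => (p.2 (j + 1, n), p.2 (j, n))) (by fun_prop)
  refine closure_minimal (s := Γ) ?_ hc x.2
  rintro p ⟨h1, h2⟩
  show _ ≠ _
  rw [h2, h2, pow_succ', mul_assoc]
  exact s_two (two_pow_ne (h1 n) j)

theorem same {x y : X} (h : π x = π y) (j : ℕ) {n : ℤ} (hn : π x + n ≠ 0) :
    x.1.2 (j, n) = y.1.2 (j, n) := by
  rw [coord x j hn, coord y j (h ▸ hn), h]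

theorem eq_of_π {x y : X} (h : π x = π y) (hn : ∀ n : ℤ, π x + n ≠ 0) : x = y :=
  Subtype.ext (Prod.ext h (funext fun i => same h i.1 (hn i.2)))

theorem σ_fix {x : X} (h : π x = 0) : σ x = x := by
  refine Subtype.ext (Prod.ext (by show -π x = π x; rw [h, neg_zero]) (funext fun i => ?_))
  show x.1.2 (i.1, -i.2) = x.1.2 (i.1, i.2)
  by_cases hi : i.2 = 0
  · rw [hi, neg_zero]
  · rw [coord x _ (by rw [h, zero_add]; exact fun e => hi (by have := int_inj (e.trans Int.cast_zero.symm); omega)),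
      coord x _ (by rw [h, zero_add]; exact fun e => hi (int_inj (e.trans Int.cast_zero.symm))),
      ← s_neg, h]
    push_cast; congr 1; ring

noncomputable def x0 : X := ⟨(((0, 1) : Z), fun i => s (2 ^ i.1 * (((0, 1) : Z) + i.2))), subset_closure ⟨by
  intro n h
  have h1 : (0 : ℤ_[2]) + (n : ℤ_[2]) = 0 := congrArg Prod.fst h
  have h2 : (1 : ℤ_[3]) + (n : ℤ_[3]) = 0 := congrArg Prod.snd h
  have : n = 0 := by simpa using h1
  simp [this] at h2, fun _ _ => rfl⟩⟩

instance : Nonempty X := ⟨x0⟩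

theorem fib_open {V : Set X} (hV : IsOpen V) {y : Z} (h : ∀ x, π x = y → x ∈ V) :
    ∃ k, ∀ x, (6 : Z) ^ k ∣ π x - y → x ∈ V := by
  have hc : IsClosed ((fun x => π x - y) '' Vᶜ) :=
    (hV.isClosed_compl.isCompact.image (π_cont.sub continuous_const)).isClosed
  obtain ⟨k, hk⟩ := six_basis (hc.isOpen_compl.mem_nhds (by
    rintro ⟨x, hx, e⟩
    exact hx (h x (sub_eq_zero.1 e))))
  exact ⟨k, fun x hx => by_contra fun hc => hk _ hx ⟨x, hc, rfl⟩⟩

theorem minimal {V : Set X} (hV : IsOpen V) (hne : V.Nonempty) :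
    ∃ k : ℕ, ∀ x, ∃ n : ℤ, ∀ m : ℤ, T (n + 6 ^ k * m) x ∈ V := by
  obtain ⟨v, hv⟩ := hne
  obtain ⟨O, hO, rfl⟩ := isOpen_induced_iff.1 hV
  obtain ⟨p, hpO, hp⟩ := mem_closure_iff.1 v.2 O hO hv
  obtain ⟨k, hk⟩ := fib_open hV (y := p.1) (fun x hx => by
    rw [eq_of_π (x := x) (y := ⟨p, subset_closure hp⟩) hx (hx ▸ hp.1)]; exact hpO)
  refine ⟨k, fun x => ?_⟩
  obtain ⟨n, hn⟩ := six_dens k (π x - p.1)
  refine ⟨n, fun m => hk _ ?_⟩
  rw [π_T]
  push_cast
  rw [show π x + (n + 6 ^ k * m) - p.1 = π x - p.1 + n + 6 ^ k * m by ring]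
  exact dvd_add hn (dvd_mul_right _ _)

theorem ex_zero : ∃ e : X, π e = 0 := by
  by_contra h
  push Not at h
  obtain ⟨k, hk⟩ := fib_open isOpen_empty (y := 0) (fun x hx => absurd hx (h x))
  obtain ⟨n, hn⟩ := six_dens k (π x0)
  exact hk (T n x0) (by rwa [sub_zero])

/-- a locally constant function depends on finitely many coordinates -/
theorem window {w : X → ℤ} (hw : IsLocallyConstant w) : ∃ r : ℕ, ∀ x y : X, π x = π y →
    (∀ n : ℤ, |n| ≤ r → π x + n ≠ 0) → w x = w y := by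
  let K : ℕ → Set (X × X) := fun r => {e | π e.1 = π e.2 ∧ w e.1 ≠ w e.2 ∧
    ∀ j (n : ℤ), |n| ≤ r → e.1.1.2 (j, n) = e.2.1.2 (j, n)}
  have hK : ∀ r, IsClosed (K r) := by
    intro r
    refine (isClosed_eq (π_cont.comp continuous_fst) (π_cont.comp continuous_snd)).inter
      (IsClosed.inter ?_ ?_)
    · exact (isClosed_discrete {e : ℤ × ℤ | e.1 ≠ e.2}).preimage
        ((hw.continuous.comp continuous_fst).prodMk (hw.continuous.comp continuous_snd))
    · show IsClosed {e : X × X | ∀ j (n : ℤ), |n| ≤ r → e.1.1.2 (j, n) = e.2.1.2 (j, n)}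
      simp only [setOf_forall]
      exact isClosed_iInter fun j => isClosed_iInter fun n => isClosed_iInter fun _ =>
        isClosed_eq (by fun_prop) (by fun_prop)
  by_contra h
  push Not at h
  obtain ⟨e, he⟩ := IsCompact.nonempty_iInter_of_sequence_nonempty_isCompact_isClosed K
    (fun r e he => ⟨he.1, he.2.1, fun j n hn => he.2.2 j n (by push_cast; omega)⟩)
    (fun r => by
      obtain ⟨x, y, a, b, c⟩ := h r
      exact ⟨(x, y), a, c, fun j n hn => same a j (b n hn)⟩) (hK 0).isCompact hK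
  rw [mem_iInter] at he
  apply (he 0).2.1
  rw [show e.1 = e.2 from Subtype.ext (Prod.ext (he 0).1 (funext fun i =>
    (he i.2.natAbs).2.2 i.1 i.2 (by simp)))]

theorem unif {w : X → ℤ} (hw : IsLocallyConstant w) {U : Set X} (hU : IsClosed U)
    (h : ∀ x ∈ U, ∀ y ∈ U, π x = π y → w x = w y) :
    ∃ k, ∀ x ∈ U, ∀ y ∈ U, (6 : Z) ^ k ∣ π x - π y → w x = w y := by
  have h1 : IsClosed {e : X × X | e.1 ∈ U ∧ e.2 ∈ U ∧ w e.1 ≠ w e.2} :=
    (hU.preimage continuous_fst).inter ((hU.preimage continuous_snd).inter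
      ((isClosed_discrete {e : ℤ × ℤ | e.1 ≠ e.2}).preimage
        ((hw.continuous.comp continuous_fst).prodMk (hw.continuous.comp continuous_snd))))
  have hc := (h1.isCompact.image (f := fun e : X × X => π e.1 - π e.2)
    ((π_cont.comp continuous_fst).sub (π_cont.comp continuous_snd))).isClosed
  obtain ⟨k, hk⟩ := six_basis (hc.isOpen_compl.mem_nhds (by
    rintro ⟨e, ⟨a, b, c⟩, d⟩
    exact c (h _ a _ b (sub_eq_zero.1 d))))
  exact ⟨k, fun x hx y hy d => by_contra fun hc => hk _ d ⟨(x, y), ⟨hx, hy, hc⟩, rfl⟩⟩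

theorem cob (S : ℤ → X → ℤ) (v : X → ℤ) (hS : ∀ n, IsLocallyConstant (S n))
    (hv : IsLocallyConstant v) (hadd : ∀ a b x, S (a + b) x = S a x + S b (T a x))
    (hsym : ∀ e, π e = 0 → ∀ a, S (-a) e = S a e + v (T a e)) :
    ∃ h : X → ℤ, IsLocallyConstant h ∧ ∀ n x, h (T n x) + S n x = h x := by
  have h0 : ∀ x, S 0 x = 0 := fun x => by
    have := hadd 0 0 x; rw [T_zero, add_zero] at this; omega
  obtain ⟨r1, hr1⟩ := window (hS 1)
  obtain ⟨r2, hr2⟩ := window hv
  obtain ⟨R, hR1, hR2⟩ : ∃ R : ℤ, (r1 : ℤ) < R ∧ (r2 : ℤ) < R := ⟨r1 + r2 + 1, by omega, by omega⟩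
  have hfar : ∀ (e : X) (i : ℤ) (r : ℕ), π e = 0 → (r : ℤ) < |i| → ∀ n : ℤ, |n| ≤ r → π (T i e) + n ≠ 0 := by
    intro e i r he hi n hn h
    rw [π_T, he, zero_add, ← Int.cast_add, ← Int.cast_zero] at h
    have := int_inj h
    rw [show i = -n by omega, abs_neg] at hi
    omega
  have hd : ∀ e e' : X, π e = 0 → π e' = 0 → ∀ n : ℤ, R ≤ |n| →
      S n e - S n e' = S R e - S R e' := by
    intro e e' he he'
    have st : ∀ i : ℤ, (r1 : ℤ) < |i| → S (i + 1) e - S (i + 1) e' = S i e - S i e' := by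
      intro i hi
      rw [hadd, hadd, hr1 (T i e) (T i e') (by rw [π_T, π_T, he, he']) (hfar e i r1 he hi)]; ring
    have up : ∀ n, R ≤ n → S n e - S n e' = S R e - S R e' := by
      intro n hn
      induction n, hn using Int.le_induction with
      | base => rfl
      | succ n hn ih => rw [st n (lt_of_lt_of_le (by omega) (le_abs_self n)), ih]
    have dn : ∀ n, n ≤ -R → S n e - S n e' = S (-R) e - S (-R) e' := by
      intro n hn
      induction n, hn using Int.le_induction_down with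
      | base => rfl
      | pred n hn ih =>
        rw [← ih, ← st (n - 1) (lt_of_lt_of_le (by omega) (neg_le_abs _)), sub_add_cancel]
    intro n hn
    rcases le_abs.1 hn with h | h
    · exact up n h
    · rw [dn n (by omega), hsym e he, hsym e' he', hr2 (T R e) (T R e') (by rw [π_T, π_T, he, he'])
        (hfar e R r2 he (lt_of_lt_of_le hR2 (le_abs_self _)))]; ring
  obtain ⟨k, hk⟩ : ∃ k : ℕ, 2 * R ≤ (6 : ℤ) ^ k := by
    obtain ⟨k, hk⟩ := pow_unbounded_of_one_lt (2 * R) (by norm_num : (1 : ℤ) < 6)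
    exact ⟨k, hk.le⟩
  let U : ℕ → Set X := fun k => {x | (6 : Z) ^ k ∣ π x + R}
  have hUo : ∀ k x, ∀ᶠ y in 𝓝 x, (y ∈ U k ↔ x ∈ U k) := by
    intro k x
    filter_upwards [π_cont.continuousAt.eventually (six_nhds (π x) k)] with y hy
    show (6 : Z) ^ k ∣ π y + R ↔ (6 : Z) ^ k ∣ π x + R
    rw [show π y + R = π y - π x + (π x + R) by ring]
    exact dvd_add_right hy
  have hUc : IsClosed (U k) := by
    rw [← isOpen_compl_iff, isOpen_iff_mem_nhds]
    intro x hx
    filter_upwards [hUo k x] with y hy h using hx (hy.1 h)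
  obtain ⟨K0, hK0⟩ := unif (hS (6 ^ k)) hUc (by
    intro x hx y _ hxy
    by_cases hn : ∀ n : ℤ, π x + n ≠ 0
    · rw [eq_of_π hxy hn]
    · push Not at hn
      obtain ⟨m, hm⟩ := hn
      have a1 : π (T m x) = 0 := hm
      have a2 : π (T m y) = 0 := by rw [π_T, ← hxy, hm]
      obtain ⟨j, hj⟩ : (6 : ℤ) ^ k ∣ R - m := six_int (by
        push_cast; rw [show (R : Z) - m = π x + R - (π x + m) by ring, hm, sub_zero]; exact hx)
      have b : ∀ z, S (6 ^ k) z = S (-m + 6 ^ k) (T m z) - S (-m) (T m z) := by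
        intro z
        rw [hadd, T_add, add_neg_cancel, T_zero]; ring
      have hp : (0 : ℤ) < 6 ^ k := by positivity
      have c1 : R ≤ |-m| := by
        rw [le_abs]
        rcases le_or_gt j 0 with h | h
        · right; nlinarith
        · left; nlinarith
      have c2 : R ≤ |-m + 6 ^ k| := by
        rw [le_abs]
        rcases le_or_gt j (-1) with h | h
        · right; nlinarith
        · left; nlinarith
      have d1 := hd _ _ a1 a2 _ c1
      have d2 := hd _ _ a1 a2 _ c2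
      rw [b x, b y]; linarith)
  have hUT : ∀ k x, x ∈ U k → ∀ j : ℤ, T (6 ^ k * j) x ∈ U k := by
    intro k x hx j
    show (6 : Z) ^ k ∣ π _ + R
    rw [π_T]; push_cast
    rw [show π x + 6 ^ k * j + R = π x + R + 6 ^ k * j by ring]
    exact dvd_add hx (dvd_mul_right _ _)
  have hUle : ∀ x ∈ U (k + K0), x ∈ U k := fun x hx => (pow_dvd_pow _ (by omega)).trans hx
  have hW : ∀ x ∈ U (k + K0), ∀ y ∈ U (k + K0), S (6 ^ (k + K0)) x = S (6 ^ (k + K0)) y := by
    intro x hx y hy
    have : ∀ j : ℕ, S (6 ^ k * j) x = S (6 ^ k * j) y := by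
      intro j
      induction j with
      | zero => simp [h0]
      | succ j ih =>
        push_cast
        rw [mul_add, mul_one, hadd, hadd, ih, hK0 _ (hUT k x (hUle x hx) j) _ (hUT k y (hUle y hy) j)]
        rw [π_T, π_T, add_sub_add_right_eq_sub, ← add_sub_add_right_eq_sub _ _ (R : Z)]
        exact (pow_dvd_pow _ (by omega)).trans (dvd_sub hx hy)
    have := this (6 ^ K0)
    push_cast at this
    rwa [pow_add]
  set K := k + K0
  set N : ℤ := 6 ^ K with hN
  have hNp : 0 < N := by positivity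
  obtain ⟨e, he⟩ := ex_zero
  have hu : T (-R) e ∈ U K := by
    show (6 : Z) ^ K ∣ π _ + R
    rw [π_T, he]; simp
  set m := S N (T (-R) e)
  have hjm : ∀ x ∈ U K, ∀ j : ℤ, S (N * j) x = j * m := by
    intro x hx j
    induction j using Int.induction_on with
    | zero => simp [h0]
    | succ j ih => rw [mul_add, mul_one, hadd, ih, hW _ (hUT K x hx j) _ hu]; ring
    | pred j ih =>
      have := hadd (N * (-j - 1)) N x
      rw [show N * (-j - 1) + N = N * -j by ring, ih, hW _ (hUT K x hx _) _ hu] at this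
      linarith
  have hm : m = 0 := by
    obtain ⟨B, hB⟩ : ∃ B : ℤ, ∀ x, |v x| ≤ B := by
      obtain ⟨B, hB⟩ := ((hv.comp (fun n => |n|)).range_finite).bddAbove
      exact ⟨B, fun x => hB ⟨x, rfl⟩⟩
    obtain ⟨B', hB'⟩ : ∃ B : ℤ, ∀ x, |S (2 * R) x| ≤ B := by
      obtain ⟨B, hB⟩ := (((hS (2 * R)).comp (fun n => |n|)).range_finite).bddAbove
      exact ⟨B, fun x => hB ⟨x, rfl⟩⟩
    have key : ∀ j : ℤ, |2 * j * m| ≤ B + B' := by
      intro j
      have a1 := hsym e he (-R + N * j)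
      have a2 := hadd (-R) (N * j) e
      have a3 := hadd (-R) (N * -j + 2 * R) e
      have a4 := hadd (N * -j) (2 * R) (T (-R) e)
      rw [hjm _ hu] at a2 a4
      rw [show -R + (N * -j + 2 * R) = -(-R + N * j) by ring] at a3
      have b1 := abs_le.1 (hB (T (-R + N * j) e))
      have b2 := abs_le.1 (hB' (T (N * -j) (T (-R) e)))
      rw [abs_le]; constructor <;> linarith
    by_contra hne
    have h1 := key (B + B' + 1)
    have h2 : 0 ≤ B + B' := (abs_nonneg _).trans h1
    rw [abs_mul, abs_of_nonneg (by omega)] at h1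
    have := Int.one_le_abs hne
    nlinarith
  have hex : ∀ x, ∃ i : ℤ, T (-i) x ∈ U K := by
    intro x
    obtain ⟨n, hn⟩ := six_dens K (π x + R)
    refine ⟨-n, ?_⟩
    show (6 : Z) ^ K ∣ π _ + R
    rw [neg_neg, π_T, add_right_comm]; exact hn
  choose i hi using hex
  have hwd : ∀ x j, T (-j) x ∈ U K → S j (T (-j) x) = S (i x) (T (-i x) x) := by
    intro x j hj
    obtain ⟨c, hc⟩ : N ∣ j - i x := six_int (by
      have := dvd_sub (hi x) hj
      rw [π_T, π_T] at this
      push_cast at this ⊢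
      rwa [show π x + -(i x : Z) + R - (π x + -(j : Z) + R) = j - i x by ring] at this)
    have := hadd (N * c) (i x) (T (-j) x)
    rw [hjm _ hj, hm, T_add, show N * c + i x = j by omega, show -j + N * c = -i x by omega] at this
    linarith
  refine ⟨fun x => -S (i x) (T (-i x) x), (IsLocallyConstant.iff_eventually_eq _).2 fun x => ?_,
    fun n x => ?_⟩
  · filter_upwards [(T_cont (-i x)).continuousAt.eventually (hUo K (T (-i x) x)),
      (T_cont (-i x)).continuousAt.eventually ((hS (i x)).eventually_eq (T (-i x) x))] with y h1 h2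
    rw [← hwd y (i x) (h1.2 (hi x)), h2]
  · have e1 : T (-(i x + n)) (T n x) = T (-i x) x := by rw [T_add]; congr 1; ring
    have := hwd (T n x) (i x + n) (e1 ▸ hi x)
    rw [e1, hadd, T_add, neg_add_cancel, T_zero] at this
    simp only
    linarith

end Pool.Agent.H.MP_52b37d_gt
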