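import Pool.Agent.H.MP_52b37d_gt.B

open Set Filter Topology

namespace Pool.Agent.H.MP_52b37d_gt

noncomputable def aX : Bool → ℤ → X → X
  | true, n, x => σ (T n x)
  | false, n, x => T n x

def aR : Bool → ℤ → ℝ → ℝ
  | true, n, t => n - t
  | false, n, t => t - n

noncomputable def act (ε : Bool) (n : ℤ) (p : X × ℝ) : X × ℝ := (aX ε n p.1, aR ε n p.2)

theorem aX_cont (ε : Bool) (n : ℤ) : Continuous (aX ε n) := by
  cases ε
  · exact T_cont n
  · exact σ_cont.comp (T_cont n)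

theorem act_cont (ε : Bool) (n : ℤ) : Continuous (act ε n) := by
  refine ((aX_cont ε n).comp continuous_fst).prodMk ?_
  cases ε <;> simp only [aR] <;> fun_prop

theorem act_act (ε ε' : Bool) (n n' : ℤ) : ∃ ε'' n'', ∀ p, act ε n (act ε' n' p) = act ε'' n'' p := by
  refine ⟨xor ε ε', if ε' then n' - n else n' + n, fun p => ?_⟩
  cases ε <;> cases ε' <;>
    simp only [act, aX, aR, T_σ, σ_σ, T_add, Bool.xor_false, Bool.xor_true, Bool.not_false,
      Bool.not_true, Bool.false_eq_true, if_false, if_true, Prod.mk.injEq, sub_eq_add_neg, true_and] <;>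
    push_cast <;> ring

theorem act_inv (ε : Bool) (n : ℤ) : ∃ n', ∀ p, act ε n' (act ε n p) = p := by
  refine ⟨if ε then n else -n, fun p => ?_⟩
  cases ε <;> simp [act, aX, aR, T_σ, σ_σ, T_add, T_zero]

instance st : Setoid (X × ℝ) where
  r p p' := ∃ ε n, p' = act ε n p
  iseqv := ⟨fun p => ⟨false, 0, by simp [act, aX, aR, T_zero]⟩, by
    rintro p _ ⟨ε, n, rfl⟩
    obtain ⟨n', h⟩ := act_inv ε n
    exact ⟨ε, n', (h p).symm⟩, by
    rintro p _ _ ⟨ε, n, rfl⟩ ⟨ε', n', rfl⟩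
    obtain ⟨a, b, h⟩ := act_act ε' ε n' n
    exact ⟨a, b, h p⟩⟩

abbrev M := Quotient st

def q (p : X × ℝ) : M := Quotient.mk st p

theorem q_eq {p p' : X × ℝ} : q p = q p' ↔ ∃ ε n, p' = act ε n p := Quotient.eq

theorem q_act (ε : Bool) (n : ℤ) (p : X × ℝ) : q (act ε n p) = q p := (q_eq.2 ⟨ε, n, rfl⟩).symm

theorem q_quot : IsQuotientMap q := isQuotientMap_quotient_mk'

theorem q_cont : Continuous q := q_quot.continuous

theorem q_surj : Function.Surjective q := q_quot.surjective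

theorem q_open : IsOpenMap q := by
  intro O hO
  rw [← q_quot.isOpen_preimage]
  have : q ⁻¹' (q '' O) = ⋃ e : Bool × ℤ, act e.1 e.2 ⁻¹' O := by
    ext p
    simp only [mem_preimage, mem_image, mem_iUnion]
    constructor
    · rintro ⟨p', h, e⟩
      obtain ⟨ε, n, rfl⟩ := q_eq.1 e.symm
      exact ⟨(ε, n), h⟩
    · rintro ⟨e, h⟩
      exact ⟨_, h, q_act _ _ _⟩
  rw [this]
  exact isOpen_iUnion fun e => hO.preimage (act_cont _ _)

theorem fin_le (B : ℝ) : {e : Bool × ℤ | |(e.2 : ℝ)| ≤ B}.Finite := by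
  refine ((finite_univ (α := Bool)).prod (finite_Icc (-⌈B⌉) ⌈B⌉)).subset fun e he => ⟨trivial, ?_⟩
  have h : |(e.2 : ℝ)| ≤ ⌈B⌉ := le_trans he (Int.le_ceil B)
  exact abs_le.1 (by exact_mod_cast h)

theorem aR_bd (ε : Bool) (n : ℤ) (t : ℝ) : |(n : ℝ)| ≤ |t| + |aR ε n t| := by
  cases ε <;> simp only [aR] <;> cases abs_cases (n : ℝ) <;> cases abs_cases t <;>
    first
    | (cases abs_cases (t - n) <;> linarith)
    | skip
  all_goals cases abs_cases ((n : ℝ) - t) <;> linarith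

instance : T2Space M := by
  rw [t2Space_iff_of_isOpenQuotientMap ⟨q_surj, q_cont, q_open⟩]
  have : {e : (X × ℝ) × X × ℝ | q e.1 = q e.2} = ⋃ i : Bool × ℤ, {e | e.2 = act i.1 i.2 e.1} := by
    ext e
    simp only [mem_setOf_eq, mem_iUnion, q_eq, Prod.exists]
  rw [this]
  refine LocallyFinite.isClosed_iUnion (fun e => ?_) fun i =>
    isClosed_eq continuous_snd ((act_cont _ _).comp continuous_fst)
  have hc : Continuous fun e : (X × ℝ) × X × ℝ => |e.1.2| + |e.2.2| := by fun_prop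
  refine ⟨{e' | |e'.1.2| + |e'.2.2| < |e.1.2| + |e.2.2| + 1},
    (isOpen_lt hc continuous_const).mem_nhds (by simp), (fin_le (|e.1.2| + |e.2.2| + 1)).subset ?_⟩
  rintro i ⟨e', h1, h2⟩
  simp only [mem_setOf_eq] at h1 h2 ⊢
  rw [h1] at h2
  exact (aR_bd i.1 i.2 e'.1.2).trans h2.le

instance : SecondCountableTopology M := q_quot.secondCountableTopology q_open

instance : CompactSpace M := by
  refine ⟨?_⟩
  have : (univ : Set M) = q '' (univ ×ˢ Icc 0 1) := by
    refine (eq_univ_of_forall fun z => ?_).symm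
    obtain ⟨p, rfl⟩ := q_surj z
    exact ⟨act false ⌊p.2⌋ p, ⟨trivial, Int.fract_nonneg _, (Int.fract_lt_one _).le⟩, q_act _ _ _⟩
  rw [this]
  exact (isCompact_univ.prod isCompact_Icc).image q_cont

instance : Nontrivial M := ⟨q (x0, 0), q (x0, 1 / 2), fun h => by
  obtain ⟨ε, n, h⟩ := q_eq.1 h
  have h2 : (1 / 2 : ℝ) = aR ε n 0 := congrArg Prod.snd h
  cases ε <;> simp only [aR] at h2
  · have : (2 * n : ℤ) = -1 := by exact_mod_cast (by linarith : (2 * n : ℝ) = -1)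
    omega
  · have : (2 * n : ℤ) = 1 := by exact_mod_cast (by linarith : (2 * n : ℝ) = 1)
    omega⟩

theorem box {O : Set M} (hO : IsOpen O) (hne : O.Nonempty) : ∃ (V : Set X) (a δ : ℝ), IsClopen V ∧
    V.Nonempty ∧ 0 < δ ∧ ∀ x ∈ V, ∀ t, |t - a| < δ → q (x, t) ∈ O := by
  obtain ⟨z, hz⟩ := hne
  obtain ⟨p, rfl⟩ := q_surj z
  obtain ⟨u, hu, v, hv, huv⟩ := mem_nhds_prod_iff.1 ((hO.preimage q_cont).mem_nhds hz)
  obtain ⟨δ, hδ, hb⟩ := Metric.mem_nhds_iff.1 hv
  obtain ⟨V, ⟨h1, h2⟩, h3⟩ := (nhds_basis_clopen p.1).mem_iff.1 hu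
  exact ⟨V, p.2, δ, h2, ⟨_, h1⟩, hδ, fun x hx t ht => huv (mk_mem_prod (h3 hx) (hb ht))⟩

instance : ConnectedSpace M := by
  have h1 : IsConnected (range fun t : ℝ => q (x0, t)) := isConnected_range (q_cont.comp (by fun_prop))
  have h2 : Dense (range fun t : ℝ => q (x0, t)) := by
    rw [dense_iff_inter_open]
    intro O hO hne
    obtain ⟨V, a, δ, hV, hV', hδ, h⟩ := box hO hne
    obtain ⟨k, hk⟩ := minimal hV.isOpen hV'
    obtain ⟨n, hn⟩ := hk x0
    refine ⟨_, h _ (hn 0) a (by simpa using hδ), a + n, ?_⟩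
    show q (x0, a + n) = _
    rw [← q_act false n (x0, a + n)]
    simp [act, aX, aR]
  rw [connectedSpace_iff_univ, ← h2.closure_eq]
  exact h1.closure

noncomputable def f : C(M, M) where
  toFun := Quotient.map (fun p : X × ℝ => (φ p.1, 2 * p.2)) (by
    rintro p _ ⟨ε, n, rfl⟩
    refine ⟨ε, 2 * n, ?_⟩
    cases ε <;> simp only [act, aX, aR, φ_σ, φ_T, Prod.mk.injEq, true_and] <;> push_cast <;> ring)
  continuous_toFun := q_quot.continuous_iff.2
    (q_cont.comp ((φ_cont.comp continuous_fst).prodMk (by fun_prop)))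

theorem f_q (p : X × ℝ) : f (q p) = q (φ p.1, 2 * p.2) := rfl

def cut (V : Set X) (a : ℝ) (x : X) (τ : ℝ) : Prop := ∃ ε n, aX ε n x ∈ V ∧ aR ε n τ = a

theorem cut_act {V : Set X} {a : ℝ} {x : X} {τ : ℝ} (ε : Bool) (n : ℤ) :
    cut V a (aX ε n x) (aR ε n τ) ↔ cut V a x τ := by
  have key : ∀ ε n x τ, cut V a (aX ε n x) (aR ε n τ) → cut V a x τ := by
    rintro ε n x τ ⟨ε', n', h1, h2⟩
    obtain ⟨b, c, h⟩ := act_act ε' ε n' n
    have := h (x, τ)
    simp only [act, Prod.mk.injEq] at this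
    exact ⟨b, c, this.1 ▸ h1, this.2 ▸ h2⟩
  refine ⟨key ε n x τ, fun h => ?_⟩
  obtain ⟨n', hn⟩ := act_inv ε n
  have := hn (x, τ)
  simp only [act, Prod.mk.injEq] at this
  apply key ε n'
  rwa [this.1, this.2]

theorem cut_lc {V : Set X} (hV : IsClopen V) (a B : ℝ) (x : X) :
    ∀ᶠ y in 𝓝 x, ∀ τ, |τ| ≤ B → (cut V a y τ ↔ cut V a x τ) := by
  have h : ∀ᶠ y in 𝓝 x, ∀ e ∈ {e : Bool × ℤ | |(e.2 : ℝ)| ≤ B + |a|},
      (aX e.1 e.2 y ∈ V ↔ aX e.1 e.2 x ∈ V) := by
    rw [(fin_le _).eventually_all]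
    intro e _
    by_cases h : aX e.1 e.2 x ∈ V
    · filter_upwards [(hV.isOpen.preimage (aX_cont e.1 e.2)).mem_nhds h] with y hy
      exact ⟨fun _ => h, fun _ => hy⟩
    · filter_upwards [(hV.compl.isOpen.preimage (aX_cont e.1 e.2)).mem_nhds h] with y hy
      exact ⟨fun h' => absurd h' hy, fun h' => absurd h' h⟩
  filter_upwards [h] with y hy τ hτ
  refine exists_congr fun ε => exists_congr fun n => and_congr_left fun e => hy (ε, n) ?_
  have := aR_bd ε n τ
  rw [e] at this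
  exact this.trans (by linarith)

theorem leaf {K : Set M} (hK : IsClosed K) (hc : IsPreconnected K) (hne : K ≠ univ) {p0 p1 : X × ℝ}
    (h0 : q p0 ∈ K) (h1 : q p1 ∈ K) : ∃ ε n ν, aX ε n p1.1 = T ν p0.1 := by
  by_contra hn
  push Not at hn
  obtain ⟨V, a, δ, hV, hV', hδ, hb⟩ := box hK.isOpen_compl (nonempty_compl.2 hne)
  obtain ⟨k, hk⟩ := minimal hV.isOpen hV'
  set L : ℝ := 6 ^ k with hL
  have hL0 : 0 < L := by positivity
  have hfar : ∀ p, q p ∈ K → ∀ τ, cut V a p.1 τ → δ ≤ |τ - p.2| := by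
    rintro p hp τ ⟨ε, n, e1, e2⟩
    by_contra hlt
    refine hb _ e1 (aR ε n p.2) ?_ (by have := q_act ε n p; rw [act] at this; rwa [this])
    rw [← e2]
    push Not at hlt
    cases ε <;> simp only [aR]
    · rwa [sub_sub_sub_cancel_right, abs_sub_comm]
    · rwa [sub_sub_sub_cancel_left]
  have hden : ∀ x t, ∃ τ, cut V a x τ ∧ t < τ ∧ τ ≤ t + L := by
    intro x t
    obtain ⟨n, hn⟩ := hk x
    let m := ⌊(t - a - n) / L⌋ + 1
    have m1 := Int.floor_le ((t - a - n) / L)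
    have m2 := Int.lt_floor_add_one ((t - a - n) / L)
    rw [le_div_iff₀ hL0] at m1
    rw [div_lt_iff₀ hL0] at m2
    refine ⟨a + ((n + 6 ^ k * m : ℤ) : ℝ), ⟨false, _, hn m, by simp [aR]⟩, ?_, ?_⟩
    · simp only [m]; push_cast; linarith
    · simp only [m]; push_cast; linarith
  obtain ⟨W, hW, hW0, hW1⟩ : ∃ W : Set X, IsClopen W ∧ T ⌊p0.2⌋ p0.1 ∈ W ∧
      ∀ ε (n : ℤ), |(n : ℝ)| ≤ |p1.2| + (L + 2) → aX ε n p1.1 ∉ W := by
    have hf := ((fin_le (|p1.2| + (L + 2))).image (fun e => aX e.1 e.2 p1.1)).isClosed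
    obtain ⟨W, ⟨a1, a2⟩, a3⟩ := (nhds_basis_clopen (T ⌊p0.2⌋ p0.1)).mem_iff.1
      (hf.isOpen_compl.mem_nhds (by rintro ⟨e, -, he⟩; exact hn _ _ _ he))
    exact ⟨W, a2, a1, fun ε n h hw => a3 hw ⟨(ε, n), h, rfl⟩⟩
  let E : Set (X × ℝ) := {p | ∃ ν, cut W 0 p.1 ν ∧ ∀ τ, cut V a p.1 τ →
    ¬ (p.2 < τ ∧ τ ≤ ν - 1) ∧ ¬ (ν + 1 ≤ τ ∧ τ < p.2)}
  have hbd : ∀ (p : X × ℝ) ν, (∀ τ, cut V a p.1 τ →
      ¬ (p.2 < τ ∧ τ ≤ ν - 1) ∧ ¬ (ν + 1 ≤ τ ∧ τ < p.2)) → |ν - p.2| ≤ L + 2 := by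
    intro p ν h
    obtain ⟨τ, a1, a2, a3⟩ := hden p.1 p.2
    obtain ⟨τ', b1, b2, b3⟩ := hden p.1 (p.2 - L - 1)
    have c1 := (h τ a1).1
    have c2 := (h τ' b1).2
    push Not at c1 c2
    rw [abs_le]
    constructor
    · by_contra hc
      linarith [c2 (by linarith)]
    · linarith [c1 a2]
  have hinv : ∀ ε n p, act ε n p ∈ E → p ∈ E := by
    rintro ε n p ⟨ν, a1, a2⟩
    cases ε
    · refine ⟨ν + n, (cut_act false n).1 (by simpa [aR, act] using a1), fun τ hτ => ?_⟩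
      have := a2 _ ((cut_act false n).2 hτ)
      simp only [act, aR] at this
      exact ⟨fun h => this.1 ⟨by linarith [h.1], by linarith [h.2]⟩,
        fun h => this.2 ⟨by linarith [h.1], by linarith [h.2]⟩⟩
    · refine ⟨n - ν, (cut_act true n).1 (by simpa [aR, act] using a1), fun τ hτ => ?_⟩
      have := a2 _ ((cut_act true n).2 hτ)
      simp only [act, aR] at this
      exact ⟨fun h => this.2 ⟨by linarith [h.2], by linarith [h.1]⟩,
        fun h => this.1 ⟨by linarith [h.2], by linarith [h.1]⟩⟩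
  have hE : ∀ p p', q p = q p' → p ∈ E → p' ∈ E := by
    intro p p' h hp
    obtain ⟨ε, n, rfl⟩ := q_eq.1 h.symm
    exact hinv ε n _ hp
  have htr : ∀ (p p' : X × ℝ) (B : ℝ), q p ∈ K → q p' ∈ K → |p'.2 - p.2| < δ → |p.2| + L + 3 ≤ B →
      |p'.2| ≤ B → (∀ τ, |τ| ≤ B → (cut V a p'.1 τ ↔ cut V a p.1 τ)) →
      (∀ τ, |τ| ≤ B → (cut W 0 p'.1 τ ↔ cut W 0 p.1 τ)) → p ∈ E → p' ∈ E := by
    rintro p p' B hp hp' hd b1 b2 c1 c2 ⟨ν, a1, a2⟩
    have hν := abs_le.1 (hbd p ν a2)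
    have := le_abs_self p.2
    have := neg_abs_le p.2
    have := abs_le.1 b2
    have := abs_lt.1 hd
    refine ⟨ν, (c2 ν (abs_le.2 ⟨by linarith, by linarith⟩)).2 a1, fun τ hτ => ⟨fun h => ?_, fun h => ?_⟩⟩
    · have d := hfar p' hp' τ hτ
      rw [abs_of_pos (by linarith [h.1])] at d
      exact (a2 τ ((c1 τ (abs_le.2 ⟨by linarith [h.1], by linarith [h.2]⟩)).1 hτ)).1 ⟨by linarith, h.2⟩
    · have d := hfar p' hp' τ hτ
      rw [abs_of_neg (by linarith [h.2])] at d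
      exact (a2 τ ((c1 τ (abs_le.2 ⟨by linarith [h.1], by linarith [h.2]⟩)).1 hτ)).2 ⟨h.1, by linarith⟩
  have hloc : ∀ p, q p ∈ K → ∀ᶠ p' in 𝓝 p, q p' ∈ K → (p' ∈ E ↔ p ∈ E) := by
    intro p hp
    have e1 : ∀ᶠ p' : X × ℝ in 𝓝 p, |p'.2 - p.2| < min δ 1 := by
      have hc : Continuous fun p' : X × ℝ => |p'.2 - p.2| := by fun_prop
      exact hc.continuousAt.eventually_lt continuousAt_const (by simpa using hδ)
    filter_upwards [e1, continuous_fst.continuousAt.eventually (cut_lc hV a (|p.2| + L + 4) p.1),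
      continuous_fst.continuousAt.eventually (cut_lc hW 0 (|p.2| + L + 4) p.1)] with p' a1 a2 a3 hp'
    rw [lt_min_iff] at a1
    have := abs_sub_abs_le_abs_sub p'.2 p.2
    exact ⟨htr p' p _ hp' hp (by rw [abs_sub_comm]; exact a1.1) (by linarith [a1.2]) (by linarith)
      (fun τ h => (a2 τ h).symm) (fun τ h => (a3 τ h).symm),
      htr p p' _ hp hp' a1.1 (by linarith) (by linarith [a1.2]) a2 a3⟩
  have hcl : ∀ D : Set (X × ℝ), (∀ p p', q p = q p' → p ∈ D → p' ∈ D) →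
      (∀ p, q p ∈ K → ∀ᶠ p' in 𝓝 p, q p' ∈ K → (p' ∈ D ↔ p ∈ D)) → IsClosed (K ∩ q '' D) := by
    intro D h1 h2
    rw [← q_quot.isClosed_preimage]
    apply isClosed_of_closure_subset
    intro p hp
    have hpK : q p ∈ K := closure_minimal (t := q ⁻¹' K) (fun _ h => h.1) (hK.preimage q_cont) hp
    obtain ⟨p', a1, a2, p'', a3, a4⟩ := mem_closure_iff_nhds.1 hp _ (h2 p hpK)
    exact ⟨hpK, p, (a1 a2).1 (h1 _ _ a4 a3), rfl⟩
  have c1 := hcl E hE hloc
  have c2 := hcl Eᶜ (fun p p' h a b => a (hE _ _ h.symm b))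
    (fun p hp => (hloc p hp).mono fun p' h h' => not_congr (h h'))
  obtain ⟨z, -, ⟨-, p, hp, rfl⟩, -, p', hp', e⟩ := isPreconnected_closed_iff.1 hc _ _ c1 c2 (by
    intro z hz
    obtain ⟨p, rfl⟩ := q_surj z
    by_cases h : p ∈ E
    · exact Or.inl ⟨hz, p, h, rfl⟩
    · exact Or.inr ⟨hz, p, h, rfl⟩)
    ⟨q p0, h0, h0, p0, ⟨⌊p0.2⌋, ⟨false, _, hW0, by simp [aR]⟩, fun τ _ =>
      ⟨fun h => by linarith [h.1, h.2, Int.floor_le p0.2],
        fun h => by linarith [h.1, h.2, Int.lt_floor_add_one p0.2]⟩⟩, rfl⟩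
    ⟨q p1, h1, h1, p1, by
      rintro ⟨ν, ⟨ε, n, a1, a2⟩, a3⟩
      refine hW1 ε n ?_ a1
      have := aR_bd ε n ν
      rw [a2, abs_zero] at this
      have b := hbd p1 ν a3
      have := abs_sub_abs_le_abs_sub ν p1.2
      linarith, rfl⟩
  exact hp' (hE _ _ e.symm hp)

theorem irr (z : M) (K : Set M) (hK : IsClosed K) (hc : IsConnected K) (h0 : z ∈ K) (h1 : f z ∈ K) :
    K = univ := by
  by_contra hne
  obtain ⟨p, rfl⟩ := q_surj z
  obtain ⟨ε, n, ν, h⟩ := leaf hK hc.isPreconnected hne h0 (p1 := (φ p.1, 2 * p.2)) h1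
  cases ε
  · have := congrFun (congrArg (fun x : X => x.1.2) h) (0, n - 2 * ν)
    simp only [aX, T, T0, φ, φ0] at this
    rw [if_pos (by omega), show (n - 2 * ν + n) / 2 = n - 2 * ν + ν by omega] at this
    exact coord_ne p.1 0 _ this
  · have h3 := congrArg π h
    simp only [aX, π_σ, π_T, π_φ] at h3
    obtain ⟨m, hm⟩ : 3 ∣ -(n + ν) := three_dvd (y := π p.1) (by push_cast; linear_combination -h3)
    have := congrFun (congrArg (fun x : X => x.1.2) h) (0, -m - ν)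
    simp only [aX, T, T0, φ, φ0, σ, σ0] at this
    rw [if_pos (by omega), show (-(-m - ν) + n) / 2 = -m - ν + ν by omega] at this
    exact coord_ne p.1 0 _ this

theorem f_surj : Function.Surjective f := by
  rw [← range_eq_univ]
  exact irr (f (q (x0, 0))) _ (isCompact_range f.continuous).isClosed
    (isConnected_range f.continuous) ⟨_, rfl⟩ ⟨_, rfl⟩

theorem lift0 (g : C(X, Circle)) : ∃ G : C(X, ℝ), ∀ x, Circle.exp (G x) = g x := by
  classical
  have hA : IsClosed {x | g x = 1} := isClosed_eq g.continuous continuous_const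
  have hB : IsOpen {x | g x ≠ -1} := isOpen_ne_fun g.continuous continuous_const
  obtain ⟨U, hU, hAU, hUB⟩ := exists_clopen_of_closed_subset_open hA hB (by
    intro x hx h
    rw [show g x = 1 from hx] at h
    have := congrArg (fun z : Circle => (z : ℂ).re) h
    norm_num at this)
  have slit : ∀ z : Circle, z ≠ -1 → (z : ℂ) ∈ Complex.slitPlane := by
    intro z hz
    rw [Complex.mem_slitPlane_iff_arg]
    refine ⟨fun h => hz ?_, z.coe_ne_zero⟩
    rw [← Circle.exp_arg z, h]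
    ext; simp
  have hc : ∀ (u : X → Circle) (D : Set X), Continuous u → (∀ x ∈ D, u x ≠ -1) →
      ContinuousOn (fun x => (u x : ℂ).arg) D := fun u D hu h x hx =>
    ((Complex.continuousAt_arg (slit _ (h x hx))).comp (f := fun x => (u x : ℂ))
      (by fun_prop)).continuousWithinAt
  refine ⟨⟨fun x => if x ∈ U then (g x : ℂ).arg else ((-g x : Circle) : ℂ).arg + Real.pi, ?_⟩, fun x => ?_⟩
  · refine continuous_if (by simp [hU.frontier_eq]) ?_ ?_
    · simp only [setOf_mem_eq, hU.isClosed.closure_eq]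
      exact hc g U g.continuous fun x hx => hUB hx
    · rw [show {x | x ∉ U} = Uᶜ from rfl, hU.compl.isClosed.closure_eq]
      exact (hc (fun x => -g x) Uᶜ g.continuous.neg fun x hx h =>
        hx (hAU (neg_injective h))).add continuousOn_const
  · simp only [ContinuousMap.coe_mk]
    split_ifs
    · exact Circle.exp_arg _
    · rw [Circle.exp_add, Circle.exp_arg]
      ext; simp

theorem lift1 (g : C(X × ℝ, Circle)) : ∃ G : C(X × ℝ, ℝ), ∀ p, Circle.exp (G p) = g p := by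
  obtain ⟨G0, h0⟩ := lift0 (g.comp ⟨fun x => (x, 0), by fun_prop⟩)
  let H : C(unitInterval × (X × ℝ), Circle) := g.comp ⟨fun e => (e.2.1, e.1.1 * e.2.2), by fun_prop⟩
  have hH : ∀ a : X × ℝ, H (0, a) = Circle.exp ((G0.comp ⟨Prod.fst, continuous_fst⟩) a) := by
    intro a; simp [H, h0]
  refine ⟨(Circle.isCoveringMap_exp.liftHomotopy H _ hH).comp ⟨fun p => (1, p), by fun_prop⟩, fun p => ?_⟩
  have := congrFun (Circle.isCoveringMap_exp.liftHomotopy_lifts H _ hH) (1, p)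
  simpa [H] using this

theorem int_part {u : X × ℝ → ℝ} (hu : Continuous u) (h : ∀ p, Circle.exp (u p) = 1) :
    ∃ c : X → ℤ, IsLocallyConstant c ∧ ∀ p, u p = c p.1 * (2 * Real.pi) := by
  have h' : ∀ p, ∃ n : ℤ, u p = n * (2 * Real.pi) := fun p => Circle.exp_eq_one.1 (h p)
  choose c hc using h'
  have hpi : (2 * Real.pi) ≠ 0 := by positivity
  have hcc : Continuous c := by
    rw [Int.isClosedEmbedding_coe_real.isEmbedding.continuous_iff]
    have : ((↑) : ℤ → ℝ) ∘ c = fun p => u p / (2 * Real.pi) := by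
      funext p; simp only [Function.comp, hc p]; field_simp
    rw [this]; fun_prop
  have hl := (IsLocallyConstant.iff_continuous c).2 hcc
  refine ⟨fun x => c (x, 0), hl.comp_continuous (by fun_prop), fun p => ?_⟩
  rw [hc p]
  have := (hl.comp_continuous (show Continuous fun t : ℝ => (p.1, t) by fun_prop)).apply_eq_of_preconnectedSpace p.2 0
  exact congrArg (fun n : ℤ => (n : ℝ) * (2 * Real.pi)) this

theorem liftM (g : C(M, Circle)) : ∃ G : C(M, ℝ), ∀ z, Circle.exp (G z) = g z := by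
  obtain ⟨G, hG⟩ := lift1 (g.comp ⟨q, q_cont⟩)
  have hpi : (2 * Real.pi) ≠ 0 := by positivity
  have h1 : ∀ ε n, ∃ c : X → ℤ, IsLocallyConstant c ∧
      ∀ p, G (act ε n p) - G p = c p.1 * (2 * Real.pi) := fun ε n =>
    int_part ((G.continuous.comp (act_cont ε n)).sub G.continuous) fun p => by
      rw [Circle.exp_sub, hG, hG]; simp [q_act]
  choose c hc1 hc2 using h1
  have hS : ∀ n x t, G (T n x, t - n) = G (x, t) + c false n x * (2 * Real.pi) := fun n x t => by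
    have := hc2 false n (x, t); simp only [act, aX, aR] at this; linarith
  have hv : ∀ x t, G (σ x, -t) = G (x, t) + c true 0 x * (2 * Real.pi) := fun x t => by
    have := hc2 true 0 (x, t); simp only [act, aX, aR, T_zero, Int.cast_zero, zero_sub] at this; linarith
  obtain ⟨e0, he0⟩ := ex_zero
  have hfix : ∀ e, π e = 0 → c true 0 e = 0 := by
    intro e he
    have := hv e 0
    rw [σ_fix he, neg_zero, left_eq_add, mul_eq_zero] at this
    exact_mod_cast this.resolve_right hpi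
  obtain ⟨h, hh1, hh2⟩ := cob (c false) (c true 0) (hc1 false) (hc1 true 0) (by
    intro a b x
    have a1 := hS (a + b) x 0
    have a2 := hS a x 0
    have a3 := hS b (T a x) (0 - a)
    rw [T_add, show (0 : ℝ) - a - b = 0 - ((a + b : ℤ) : ℝ) by push_cast; ring, a1, a2] at a3
    have : ((c false (a + b) x : ℤ) : ℝ) = c false a x + c false b (T a x) :=
      mul_right_cancel₀ hpi (by linarith)
    exact_mod_cast this) (by
    intro e he a
    have a1 := hS (-a) e 0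
    have a2 := hS a e 0
    have a3 := hv (T a e) (0 - a)
    have a4 := T_σ (-a) e
    rw [neg_neg, σ_fix he] at a4
    rw [← a4, show -((0 : ℝ) - a) = 0 - ((-a : ℤ) : ℝ) by push_cast; ring, a1, a2] at a3
    have : ((c false (-a) e : ℤ) : ℝ) = c false a e + c true 0 (T a e) :=
      mul_right_cancel₀ hpi (by linarith)
    exact_mod_cast this)
  let G' : X × ℝ → ℝ := fun p => G p + h p.1 * (2 * Real.pi)
  have hT : ∀ n x t, G' (T n x, t - n) = G' (x, t) := by
    intro n x t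
    simp only [G']
    rw [hS, ← hh2 n x]; push_cast; ring
  let v : X → ℤ := fun x => c true 0 x + h (σ x) - h x
  have hv' : ∀ x t, G' (σ x, -t) = G' (x, t) + v x * (2 * Real.pi) := by
    intro x t
    simp only [G', v]
    rw [hv]; push_cast; ring
  have hvT : ∀ n x, v (T n x) = v x := by
    intro n x
    have a1 := hv' (T n x) (0 - n)
    have a2 := hT (-n) (σ x) (-0)
    rw [T_σ, neg_neg, show -(0 : ℝ) - ((-n : ℤ) : ℝ) = -(0 - n) by push_cast; ring, a1, hT, hv'] at a2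
    have : (v (T n x) : ℝ) = v x := mul_right_cancel₀ hpi (by linarith)
    exact_mod_cast this
  have hv0 : ∀ x, v x = 0 := by
    have hl : IsLocallyConstant v := ((hc1 true 0).add (hh1.comp_continuous σ_cont)).sub hh1
    obtain ⟨k, hk⟩ := minimal (hl.isOpen_fiber 0) ⟨e0, by simp [v, hfix e0 he0, σ_fix he0]⟩
    intro x
    obtain ⟨n, hn⟩ := hk x
    rw [← hvT _ x]; exact hn 0
  have hc : Continuous G' := G.continuous.add (((continuous_of_discreteTopology
    (f := ((↑) : ℤ → ℝ))).comp (hh1.continuous.comp continuous_fst)).mul continuous_const)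
  refine ⟨⟨Quotient.lift G' ?_, q_quot.continuous_iff.2 hc⟩, fun z => ?_⟩
  · rintro p _ ⟨ε, n, rfl⟩
    cases ε
    · exact (hT n p.1 p.2).symm
    · have := hv' (T n p.1) (p.2 - n)
      rw [hv0, hT, neg_sub] at this
      simpa [act, aX, aR] using this.symm
  · obtain ⟨p, rfl⟩ := q_surj z
    show Circle.exp (G p + h p.1 * (2 * Real.pi)) = _
    rw [Circle.exp_add, hG, Circle.exp_int_mul_two_pi, mul_one]; rfl

theorem null (g : C(M, Circle)) : g.Homotopic (ContinuousMap.const M 1) := by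
  obtain ⟨G, hG⟩ := liftM g
  exact ⟨⟨⟨fun e => Circle.exp ((1 - e.1.1) * G e.2), by fun_prop⟩, fun z => by simp [hG],
    fun z => by simp⟩⟩

end Pool.Agent.H.MP_52b37d_gt
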